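import Pool.Agent.H174.GP.StA
import Pool.Agent.H174.GP.StP
import Pool.Agent.H174.GP.StC

/-!
# GP Tqmean (helper400, for helper174): mean of `|Tq|`
-/

open MeasureTheory ProbabilityTheory Finset

namespace Pool.Agent.H400.GP174

open Pool.Agent.H174.GP

/-- the terms of the series -/
noncomputable def gt (ρ : ℝ) (k : ℤ) : ℝ := |(k : ℝ)| * ((1 - ρ) / (1 + ρ) * ρ ^ k.natAbs)

lemma gt_nonneg {ρ : ℝ} (h0 : 0 < ρ) (h1 : ρ < 1) (k : ℤ) : 0 ≤ gt ρ k := by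
  unfold gt
  have : 0 < 1 - ρ := by linarith
  positivity

lemma gt_sum {ρ : ℝ} (h0 : 0 < ρ) (h1 : ρ < 1) :
    HasSum (gt ρ) (2 * ρ / (1 - ρ ^ 2)) := by
  have hn : ‖ρ‖ < 1 := by rw [Real.norm_of_nonneg h0.le]; exact h1
  have e := hasSum_coe_mul_geometric_of_norm_lt_one hn
  have e1 := e.mul_left ((1 - ρ) / (1 + ρ))
  have f1 : HasSum (fun n : ℕ => gt ρ (n : ℤ)) ((1 - ρ) / (1 + ρ) * (ρ / (1 - ρ) ^ 2)) := by
    refine e1.congr_fun ?_
    intro n
    unfold gt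
    rw [Int.natAbs_natCast, Int.cast_natCast, abs_of_nonneg (Nat.cast_nonneg n)]
    ring
  have f2 : HasSum (fun n : ℕ => gt ρ (-((n : ℤ) + 1))) ((1 - ρ) / (1 + ρ) * (ρ / (1 - ρ) ^ 2)) := by
    have f3 := (hasSum_nat_add_iff' (f := fun n : ℕ => gt ρ (n : ℤ)) 1).2 f1
    rw [Finset.sum_range_one] at f3
    have z : gt ρ ((0 : ℕ) : ℤ) = 0 := by
      unfold gt
      simp
    rw [z, sub_zero] at f3
    refine f3.congr_fun ?_
    intro n
    unfold gt
    have a1 : (-((n : ℤ) + 1)).natAbs = n + 1 := by omega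
    have a2 : ((n + 1 : ℕ) : ℤ).natAbs = n + 1 := Int.natAbs_natCast _
    rw [a1, a2]
    have a3 : |((-((n : ℤ) + 1) : ℤ) : ℝ)| = |(((n + 1 : ℕ) : ℤ) : ℝ)| := by
      push_cast
      rw [abs_neg]
    rw [a3]
  have f4 := f1.of_nat_of_neg_add_one f2
  have h2 : 1 - ρ ≠ 0 := by linarith
  have h3 : 1 + ρ ≠ 0 := by linarith
  have h4 : 1 - ρ ^ 2 = (1 - ρ) * (1 + ρ) := by ring
  have h5 : (1 - ρ) / (1 + ρ) * (ρ / (1 - ρ) ^ 2) + (1 - ρ) / (1 + ρ) * (ρ / (1 - ρ) ^ 2) =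
      2 * ρ / (1 - ρ ^ 2) := by
    rw [h4]
    field_simp
    ring
  rw [h5] at f4
  exact f4

theorem gp_tqmean (h1 : S_Tqlaw) (h2 : S_Tq) : Pool.Agent.H174.GP.S_Tqmean := by
  intro a ha
  obtain ⟨-, -, -, hm, -⟩ := h2 a ha
  have hρ0 : 0 < Real.exp (-a) := Real.exp_pos _
  have hρ1 : Real.exp (-a) < 1 := by
    rw [← Real.exp_zero]
    exact Real.exp_lt_exp.2 (by linarith)
  have hsq : Real.exp (-(2 * a)) = Real.exp (-a) ^ 2 := by
    rw [← Real.exp_nat_mul]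
    congr 1
    push_cast
    ring
  have hS := gt_sum hρ0 hρ1
  have hlaw : ∀ k : ℤ, lap {x | Tq a x = k} =
      ENNReal.ofReal ((1 - Real.exp (-a)) / (1 + Real.exp (-a)) * Real.exp (-a) ^ k.natAbs) := by
    intro k
    have h3 := h1 a k ha
    have h4 : Real.exp (-(a * (|k| : ℤ))) = Real.exp (-a) ^ k.natAbs := by
      rw [← Real.exp_nat_mul, Int.abs_eq_natAbs, Int.cast_natCast]
      congr 1
      ring
    rw [h4] at h3
    rw [← h3]
    exact (ENNReal.ofReal_toReal (measure_ne_top _ _)).symm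
  have hmap : ∫ x, |(Tq a x : ℝ)| ∂lap = ∫ k : ℤ, |(k : ℝ)| ∂(lap.map (Tq a)) :=
    (integral_map (f := fun k : ℤ => |(k : ℝ)|) hm.aemeasurable
      (measurable_of_countable _).aestronglyMeasurable).symm
  rw [hmap, integral_eq_lintegral_of_nonneg_ae (Filter.Eventually.of_forall fun k => abs_nonneg _)
    (measurable_of_countable _).aestronglyMeasurable, lintegral_countable']
  have ht : ∀ k : ℤ, ENNReal.ofReal |(k : ℝ)| * (lap.map (Tq a)) {k} =
      ENNReal.ofReal (gt (Real.exp (-a)) k) := by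
    intro k
    rw [Measure.map_apply hm (measurableSet_singleton k)]
    have : Tq a ⁻¹' {k} = {x | Tq a x = k} := rfl
    rw [this, hlaw k, ← ENNReal.ofReal_mul (abs_nonneg _)]
    rfl
  rw [tsum_congr ht, ← ENNReal.ofReal_tsum_of_nonneg (gt_nonneg hρ0 hρ1) hS.summable, hS.tsum_eq,
    hsq, ENNReal.toReal_ofReal]
  have : 0 < 1 - Real.exp (-a) ^ 2 := by
    have : Real.exp (-a) ^ 2 < 1 := pow_lt_one₀ hρ0.le hρ1 two_ne_zero
    linarith
  positivity

end Pool.Agent.H400.GP174
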