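import Pool.Agent.H400.GP174.Mid2bD

/-!
# GP mid2b (helper400, for helper174)
-/

open MeasureTheory ProbabilityTheory Finset

namespace Pool.Agent.H400.GP174.Mid2b

open Pool.Agent.H174.GP

lemma rpow32 (d : ℕ) : (d : ℝ) ^ (3 / 2 : ℝ) = d * Real.sqrt d := by
  rcases Nat.eq_zero_or_pos d with h | h
  · subst h
    norm_num
  · have h0 : (0 : ℝ) < d := by exact_mod_cast h
    rw [Real.sqrt_eq_rpow, show (3 / 2 : ℝ) = 1 + 1 / 2 by norm_num, Real.rpow_add h0, Real.rpow_one]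

/-! ### the geometric variables -/

/-- the sums of the geometric variables are not large -/
lemma partA (hA : S_AdmGeo) (hC : S_cheb) (hT : S_Tq) (s1 s2 η : ℝ) (hs1 : 0 < s1) (hs2 : 0 < s2)
    (hη : 0 < η) (hη1 : η < 1) : ∃ K : ℝ, 0 < K ∧ ∀ (d : ℕ) (σ R : ℝ), 1 ≤ d → 0 < σ →
      s1 ≤ σ * d → σ * d ≤ s2 → 0 < R →
      PP.real {ω | ∃ k ∈ Icc 1 d, R / 2 * (d : ℝ) ^ (3 / 2 : ℝ) <
        |∑ j ∈ Ioc ⌊η * d⌋₊ d, ((min j k : ℕ) : ℝ) * (geo σ ω j : ℝ)|} ≤ K / R ^ 2 := by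
  obtain ⟨cv, hcv, Cv, hCv, κ, hκ, hadm⟩ := hA s2 hs2
  refine ⟨144 * Cv / (s1 ^ 2 * η ^ 2), by positivity, ?_⟩
  intro d σ R hd hσ h1 h2 hR
  have hd0 : (0 : ℝ) < d := by exact_mod_cast hd
  have hd1 : (1 : ℝ) ≤ d := by exact_mod_cast hd
  have hAd := hadm σ d hσ h2
  set B := ⌊η * d⌋₊ with hB
  have hBd : B ≤ d := by
    have h3 : (B : ℝ) ≤ η * d := Nat.floor_le (by positivity)
    have h4 : η * d ≤ d := by nlinarith
    exact_mod_cast h3.trans h4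
  have hB1 : η * d < B + 1 := Nat.lt_floor_add_one _
  have hsq : 0 < Real.sqrt d := Real.sqrt_pos.2 hd0
  have hsq2 : Real.sqrt d ^ 2 = d := Real.sq_sqrt hd0.le
  have hσ2 : 1 / σ ^ 2 ≤ (d : ℝ) ^ 2 / s1 ^ 2 := by
    rw [div_le_div_iff₀ (by positivity) (by positivity)]
    have h3 : s1 ^ 2 ≤ (σ * d) ^ 2 := pow_le_pow_left₀ hs1.le h1 2
    nlinarith
  have hTq : ∀ j ∈ Ioc B d, 0 < σ * (j : ℝ) := by
    intro j hj
    rw [Finset.mem_Ioc] at hj
    have : (0 : ℝ) < j := by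
      have : 0 < j := by omega
      exact_mod_cast this
    positivity
  have hmem : ∀ j ∈ Ioc B d, j ∈ Icc 1 d := by
    intro j hj
    rw [Finset.mem_Ioc] at hj
    rw [Finset.mem_Icc]
    omega
  set φU : ℕ → ℝ → ℝ := fun j x => (j : ℝ) * (Tq (σ * j) x : ℝ) with hφU
  set φT : ℕ → ℝ → ℝ := fun j x => (Tq (σ * j) x : ℝ) with hφT
  have hmT : ∀ j ∈ Ioc B d, Measurable (φT j) := by
    intro j hj
    exact (measurable_from_top (f := fun z : ℤ => (z : ℝ))).comp (hT _ (hTq j hj)).2.2.2.1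
  have hmU : ∀ j ∈ Ioc B d, Measurable (φU j) := fun j hj => (hmT j hj).const_mul _
  have hoT : ∀ j ∈ Ioc B d, ∀ x, φT j (-x) = -φT j x := by
    intro j hj x
    show (Tq (σ * j) (-x) : ℝ) = -(Tq (σ * j) x : ℝ)
    rw [(hT _ (hTq j hj)).2.1 x]
    push_cast
    ring
  have hoU : ∀ j ∈ Ioc B d, ∀ x, φU j (-x) = -φU j x := by
    intro j hj x
    show (j : ℝ) * (φT j (-x)) = -((j : ℝ) * φT j x)
    rw [hoT j hj]
    ring
  have hiT : ∀ j ∈ Ioc B d, Integrable (fun x => (φT j x) ^ 4) lap := fun j hj =>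
    hAd.int j (hmem j hj)
  have hiU : ∀ j ∈ Ioc B d, Integrable (fun x => (φU j x) ^ 4) lap := by
    intro j hj
    have h3 := (hiT j hj).const_mul ((j : ℝ) ^ 4)
    refine h3.congr (Filter.Eventually.of_forall fun x => ?_)
    show (j : ℝ) ^ 4 * (φT j x) ^ 4 = ((j : ℝ) * φT j x) ^ 4
    ring
  have hvT : ∀ j ∈ Ioc B d, ∫ x, (φT j x) ^ 2 ∂lap ≤ Cv * (1 / σ) ^ 2 / (j : ℝ) ^ 2 := fun j hj =>
    hAd.hi j (hmem j hj)
  have hj0 : ∀ j ∈ Ioc B d, (0 : ℝ) < j := by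
    intro j hj
    rw [Finset.mem_Ioc] at hj
    have : 0 < j := by omega
    exact_mod_cast this
  have hvU : ∀ j ∈ Ioc B d, ∫ x, (φU j x) ^ 2 ∂lap ≤ Cv * ((d : ℝ) ^ 2 / s1 ^ 2) := by
    intro j hj
    have h3 : ∫ x, (φU j x) ^ 2 ∂lap = (j : ℝ) ^ 2 * ∫ x, (φT j x) ^ 2 ∂lap := by
      rw [← integral_const_mul]
      apply integral_congr_ae
      refine Filter.Eventually.of_forall fun x => ?_
      show ((j : ℝ) * φT j x) ^ 2 = (j : ℝ) ^ 2 * (φT j x) ^ 2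
      ring
    have hj := hj0 j hj
    rw [h3]
    calc (j : ℝ) ^ 2 * ∫ x, (φT j x) ^ 2 ∂lap ≤ (j : ℝ) ^ 2 * (Cv * (1 / σ) ^ 2 / (j : ℝ) ^ 2) :=
          mul_le_mul_of_nonneg_left (hvT j ‹_›) (by positivity)
      _ = Cv * (1 / σ ^ 2) := by field_simp
      _ ≤ Cv * ((d : ℝ) ^ 2 / s1 ^ 2) := mul_le_mul_of_nonneg_left hσ2 hCv.le
  have hvT2 : ∀ j ∈ Ioc B d, ∫ x, (φT j x) ^ 2 ∂lap ≤ Cv / (s1 ^ 2 * η ^ 2) := by
    intro j hj
    refine (hvT j hj).trans ?_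
    have hjp := hj0 j hj
    have hjd : η * d ≤ j := by
      rw [Finset.mem_Ioc] at hj
      have : ((B + 1 : ℕ) : ℝ) ≤ j := by exact_mod_cast hj.1
      push_cast at this
      linarith
    have h3 : (η * d) ^ 2 ≤ (j : ℝ) ^ 2 := pow_le_pow_left₀ (by positivity) hjd 2
    have h4 : 1 / (j : ℝ) ^ 2 ≤ 1 / (η * d) ^ 2 := by
      apply one_div_le_one_div_of_le (by positivity) h3
    calc Cv * (1 / σ) ^ 2 / (j : ℝ) ^ 2 = Cv * (1 / σ ^ 2) * (1 / (j : ℝ) ^ 2) := by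
          field_simp
      _ ≤ Cv * ((d : ℝ) ^ 2 / s1 ^ 2) * (1 / (η * d) ^ 2) := by
          apply mul_le_mul _ h4 (by positivity) (by positivity)
          exact mul_le_mul_of_nonneg_left hσ2 hCv.le
      _ = Cv / (s1 ^ 2 * η ^ 2) := by field_simp
  have hcard : ((Ioc B d).card : ℝ) ≤ d := by
    rw [Nat.card_Ioc]
    exact_mod_cast Nat.sub_le d B
  have hsU : ∑ j ∈ Ioc B d, ∫ x, (φU j x) ^ 2 ∂lap ≤ d * (Cv * ((d : ℝ) ^ 2 / s1 ^ 2)) := by
    refine (Finset.sum_le_sum hvU).trans ?_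
    rw [Finset.sum_const, nsmul_eq_mul]
    exact mul_le_mul_of_nonneg_right hcard (by positivity)
  have hsT : ∑ j ∈ Ioc B d, ∫ x, (φT j x) ^ 2 ∂lap ≤ d * (Cv / (s1 ^ 2 * η ^ 2)) := by
    refine (Finset.sum_le_sum hvT2).trans ?_
    rw [Finset.sum_const, nsmul_eq_mul]
    exact mul_le_mul_of_nonneg_right hcard (by positivity)
  set t1 : ℝ := R / 6 * (d * Real.sqrt d) with ht1
  set t2 : ℝ := R / 6 * Real.sqrt d with ht2
  have ht1p : 0 < t1 := by positivity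
  have ht2p : 0 < t2 := by positivity
  have hU := hC B d φU t1 hBd ht1p hmU hoU hiU
  have hTT := hC B d φT t2 hBd ht2p hmT hoT hiT
  have hsub : {ω : ℕ → ℝ | ∃ k ∈ Icc 1 d, R / 2 * (d : ℝ) ^ (3 / 2 : ℝ) <
      |∑ j ∈ Ioc B d, ((min j k : ℕ) : ℝ) * (geo σ ω j : ℝ)|} ⊆
      {ω | ∃ l ∈ Icc B d, t1 ≤ |∑ j ∈ Ioc B l, φU j (ω j)|} ∪
      {ω | ∃ l ∈ Icc B d, t2 ≤ |∑ j ∈ Ioc B l, φT j (ω j)|} := by
    rintro ω ⟨k, hk, hlt⟩
    by_contra hcon
    rw [Set.mem_union, not_or] at hcon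
    obtain ⟨hc1, hc2⟩ := hcon
    have hk' := Finset.mem_Icc.1 hk
    have h3 := sum_bd B d k hBd hk'.2 (fun j => (geo σ ω j : ℝ)) t1 t2
      (fun l hl1 hl2 => by
        by_contra h
        exact hc1 ⟨l, Finset.mem_Icc.2 ⟨hl1, hl2⟩, (not_le.1 h).le⟩)
      (fun l hl1 hl2 => by
        by_contra h
        exact hc2 ⟨l, Finset.mem_Icc.2 ⟨hl1, hl2⟩, (not_le.1 h).le⟩)
    have h4 : t1 + d * (2 * t2) = R / 2 * (d : ℝ) ^ (3 / 2 : ℝ) := by
      rw [rpow32, ht1, ht2]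
      ring
    rw [h4] at h3
    exact absurd h3 (not_le.2 hlt)
  refine (measureReal_mono hsub).trans ((measureReal_union_le _ _).trans ?_)
  have hb1 : 2 * (∑ j ∈ Ioc B d, ∫ x, (φU j x) ^ 2 ∂lap) / t1 ^ 2 ≤
      72 * Cv / (s1 ^ 2 * η ^ 2) / R ^ 2 := by
    have h3 : t1 ^ 2 = R ^ 2 / 36 * (d : ℝ) ^ 3 := by
      rw [ht1]
      calc (R / 6 * (d * Real.sqrt d)) ^ 2 = R ^ 2 / 36 * (d : ℝ) ^ 2 * Real.sqrt d ^ 2 := by ring
        _ = _ := by rw [hsq2]; ring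
    have h4 : η ^ 2 ≤ 1 := by nlinarith
    calc 2 * (∑ j ∈ Ioc B d, ∫ x, (φU j x) ^ 2 ∂lap) / t1 ^ 2
        ≤ 2 * (d * (Cv * ((d : ℝ) ^ 2 / s1 ^ 2))) / t1 ^ 2 := by gcongr
      _ = 72 * Cv / s1 ^ 2 / R ^ 2 := by
          rw [h3]
          field_simp
          ring
      _ ≤ 72 * Cv / (s1 ^ 2 * η ^ 2) / R ^ 2 := by
          apply div_le_div_of_nonneg_right _ (by positivity)
          apply div_le_div_of_nonneg_left (by positivity) (by positivity)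
          have : 0 < s1 ^ 2 := by positivity
          nlinarith
  have hb2 : 2 * (∑ j ∈ Ioc B d, ∫ x, (φT j x) ^ 2 ∂lap) / t2 ^ 2 ≤
      72 * Cv / (s1 ^ 2 * η ^ 2) / R ^ 2 := by
    have h3 : t2 ^ 2 = R ^ 2 / 36 * (d : ℝ) := by
      rw [ht2]
      calc (R / 6 * Real.sqrt d) ^ 2 = R ^ 2 / 36 * Real.sqrt d ^ 2 := by ring
        _ = _ := by rw [hsq2]
    calc 2 * (∑ j ∈ Ioc B d, ∫ x, (φT j x) ^ 2 ∂lap) / t2 ^ 2
        ≤ 2 * (d * (Cv / (s1 ^ 2 * η ^ 2))) / t2 ^ 2 := by gcongr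
      _ = 72 * Cv / (s1 ^ 2 * η ^ 2) / R ^ 2 := by
          rw [h3]
          field_simp
          ring
  calc PP.real {ω | ∃ l ∈ Icc B d, t1 ≤ |∑ j ∈ Ioc B l, φU j (ω j)|} +
      PP.real {ω | ∃ l ∈ Icc B d, t2 ≤ |∑ j ∈ Ioc B l, φT j (ω j)|}
      ≤ 72 * Cv / (s1 ^ 2 * η ^ 2) / R ^ 2 + 72 * Cv / (s1 ^ 2 * η ^ 2) / R ^ 2 :=
        add_le_add (hU.trans hb1) (hTT.trans hb2)
    _ = 144 * Cv / (s1 ^ 2 * η ^ 2) / R ^ 2 := by ring

/-! ### the signs -/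

/-- the odd sign -/
noncomputable def so (x : ℝ) : ℝ := if 0 < x then 1 else if x < 0 then -1 else 0

lemma so_odd (x : ℝ) : so (-x) = -so x := by
  unfold so
  rcases lt_trichotomy x 0 with h | h | h
  · rw [if_pos (by linarith), if_neg (by linarith), if_pos h]
    norm_num
  · subst h
    simp
  · rw [if_neg (by linarith), if_pos (by linarith), if_pos h]

lemma so_abs (x : ℝ) : |so x| ≤ 1 := by
  unfold so
  split_ifs <;> norm_num

lemma so_meas : Measurable so := by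
  unfold so
  exact Measurable.ite measurableSet_Ioi measurable_const
    (Measurable.ite measurableSet_Iio measurable_const measurable_const)

lemma sg_eq (x : ℝ) (hx : x ≠ 0) : (sg x : ℝ) = so x := by
  unfold sg so
  rcases lt_or_gt_of_ne hx with h | h
  · rw [if_neg (by linarith), if_neg (by linarith), if_pos h]
    norm_num
  · rw [if_pos h.le, if_pos h]
    norm_num

lemma eval_null (i : ℕ) (h5 : S_L3) : PP {ω : ℕ → ℝ | ω i = 0} = 0 := by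
  have h := measurePreserving_eval_infinitePi (fun _ : ℕ => lap) i
  have h1 : PP (Function.eval i ⁻¹' {(0 : ℝ)}) = lap {(0 : ℝ)} :=
    h.measure_preimage (measurableSet_singleton (0 : ℝ)).nullMeasurableSet
  rw [h5.2.2 0] at h1
  exact h1

/-- partial sums of the signs for a fixed set -/
lemma signs (hC : S_cheb) (D : ℕ) (I : Finset ℕ) (t : ℝ) (ht : 0 < t) :
    PP.real {ω | ∃ l ∈ Icc D (2 * D), t ≤ |∑ j ∈ Ioc D l, (if j ∈ I then so (ω j) else 0)|} ≤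
      2 * D / t ^ 2 := by
  have hm : ∀ j ∈ Ioc D (2 * D), Measurable (fun x : ℝ => if j ∈ I then so x else 0) := by
    intro j _
    by_cases h : j ∈ I
    · simp only [if_pos h]
      exact so_meas
    · simp only [if_neg h]
      exact measurable_const
  have habs : ∀ (j : ℕ) (x : ℝ), |(if j ∈ I then so x else 0)| ≤ 1 := by
    intro j x
    by_cases h : j ∈ I
    · rw [if_pos h]; exact so_abs x
    · rw [if_neg h]; norm_num
  have hint : ∀ j ∈ Ioc D (2 * D), ∀ n : ℕ,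
      Integrable (fun x : ℝ => (if j ∈ I then so x else 0) ^ n) lap := by
    intro j hj n
    refine Integrable.of_bound ((hm j hj).pow_const n).aestronglyMeasurable 1
      (Filter.Eventually.of_forall fun x => ?_)
    rw [norm_pow, Real.norm_eq_abs]
    exact pow_le_one₀ (abs_nonneg _) (habs j x)
  have h1 := hC D (2 * D) (fun j x => if j ∈ I then so x else 0) t (by omega) ht hm
    (fun j _ x => by
      by_cases h : j ∈ I
      · simp only [if_pos h]; exact so_odd x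
      · simp only [if_neg h]; norm_num)
    (fun j hj => hint j hj 4)
  refine h1.trans ?_
  have h2 : ∑ j ∈ Ioc D (2 * D), ∫ x, (if j ∈ I then so x else 0) ^ 2 ∂lap ≤ D := by
    have h3 : ∀ j ∈ Ioc D (2 * D), ∫ x, (if j ∈ I then so x else 0) ^ 2 ∂lap ≤ 1 := by
      intro j hj
      have h4 : ∫ x, (if j ∈ I then so x else 0) ^ 2 ∂lap ≤ ∫ _x : ℝ, (1 : ℝ) ∂lap := by
        apply integral_mono (hint j hj 2) (integrable_const _)
        intro x
        show (if j ∈ I then so x else 0) ^ 2 ≤ (1 : ℝ)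
        have h5 := habs j x
        rw [← sq_abs]
        exact pow_le_one₀ (abs_nonneg _) h5
      simpa using h4
    refine (Finset.sum_le_sum h3).trans ?_
    rw [Finset.sum_const, Nat.card_Ioc, nsmul_eq_mul, mul_one]
    have : 2 * D - D = D := by omega
    rw [this]
  have ht2 : 0 < t ^ 2 := by positivity
  gcongr

/-- the set of flippable pairs is measurable -/
lemma IP_meas (hT : S_Tq) (D : ℕ) (σ : ℝ) (hσ : 0 < σ) (i : ℕ) :
    MeasurableSet {ω : ℕ → ℝ | i ∈ IP D σ ω} := by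
  classical
  by_cases hi : i ∈ Ioc D (2 * D)
  · have hi0 : 0 < i := by
      rw [Finset.mem_Ioc] at hi
      omega
    have hg : ∀ j : ℕ, 0 < j → Measurable fun ω : ℕ → ℝ => geo σ ω j := by
      intro j hj
      have hj' : (0 : ℝ) < j := by exact_mod_cast hj
      exact (hT (σ * j) (by positivity)).2.2.2.1.comp (measurable_pi_apply j)
    have h1 : {ω : ℕ → ℝ | i ∈ IP D σ ω} =
        (({ω | geo σ ω i = 1} ∩ {ω | geo σ ω (i + D) = -1}) ∪
          ({ω | geo σ ω i = -1} ∩ {ω | geo σ ω (i + D) = 1})) := by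
      ext ω
      show i ∈ IP D σ ω ↔ _
      unfold IP
      rw [Finset.mem_filter]
      exact ⟨fun h => h.2, fun h => ⟨hi, h⟩⟩
    rw [h1]
    have hm : ∀ (j : ℕ) (z : ℤ), 0 < j → MeasurableSet {ω : ℕ → ℝ | geo σ ω j = z} := by
      intro j z hj
      exact (hg j hj) (measurableSet_singleton z)
    exact ((hm _ _ hi0).inter (hm _ _ (by omega))).union ((hm _ _ hi0).inter (hm _ _ (by omega)))
  · have h1 : {ω : ℕ → ℝ | i ∈ IP D σ ω} = ∅ := by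
      ext ω
      simp [IP, hi]
    rw [h1]
    exact MeasurableSet.empty

open Classical in
/-- partial sums of the signs on the flippable pairs -/
lemma partB (hC : S_cheb) (hT : S_Tq) (D : ℕ) (σ t : ℝ) (hσ : 0 < σ) (ht : 0 < t) :
    (PP.prod PP).real {p : (ℕ → ℝ) × (ℕ → ℝ) | ∃ l ∈ Icc D (2 * D),
      t ≤ |∑ j ∈ Ioc D l, (if j ∈ IP D σ p.1 then so (p.2 j) else 0)|} ≤ 2 * D / t ^ 2 := by
  set S : Set ((ℕ → ℝ) × (ℕ → ℝ)) := {p : (ℕ → ℝ) × (ℕ → ℝ) | ∃ l ∈ Icc D (2 * D),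
      t ≤ |∑ j ∈ Ioc D l, (if j ∈ IP D σ p.1 then so (p.2 j) else 0)|} with hS
  have hf : ∀ j, Measurable fun p : (ℕ → ℝ) × (ℕ → ℝ) =>
      if j ∈ IP D σ p.1 then so (p.2 j) else 0 := by
    intro j
    refine Measurable.ite ?_ ?_ measurable_const
    · exact measurable_fst (IP_meas hT D σ hσ j)
    · exact so_meas.comp ((measurable_pi_apply j).comp measurable_snd)
  have hSm : MeasurableSet S := by
    have h1 : S = ⋃ l ∈ Icc D (2 * D), {p : (ℕ → ℝ) × (ℕ → ℝ) |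
        t ≤ |∑ j ∈ Ioc D l, (if j ∈ IP D σ p.1 then so (p.2 j) else 0)|} := by
      ext p
      simp [hS]
    rw [h1]
    refine Finset.measurableSet_biUnion _ fun l _ => ?_
    have h2 : Measurable fun p : (ℕ → ℝ) × (ℕ → ℝ) =>
        ∑ j ∈ Ioc D l, (if j ∈ IP D σ p.1 then so (p.2 j) else 0) :=
      Finset.measurable_sum _ fun j _ => hf j
    exact measurableSet_le measurable_const h2.abs
  have h1 : (PP.prod PP) S ≤ ENNReal.ofReal (2 * D / t ^ 2) := by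
    rw [Measure.prod_apply hSm]
    have h2 : ∀ ω : ℕ → ℝ, PP (Prod.mk ω ⁻¹' S) ≤ ENNReal.ofReal (2 * D / t ^ 2) := by
      intro ω
      have h3 := signs hC D (IP D σ ω) t ht
      have h4 : Prod.mk ω ⁻¹' S = {ω' : ℕ → ℝ | ∃ l ∈ Icc D (2 * D),
          t ≤ |∑ j ∈ Ioc D l, (if j ∈ IP D σ ω then so (ω' j) else 0)|} := rfl
      rw [h4]
      rw [← ofReal_measureReal]
      refine ENNReal.ofReal_le_ofReal (le_trans (le_of_eq ?_) h3)
      congr 1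
    calc ∫⁻ ω, PP (Prod.mk ω ⁻¹' S) ∂PP ≤ ∫⁻ _ω : ℕ → ℝ, ENNReal.ofReal (2 * D / t ^ 2) ∂PP :=
          lintegral_mono h2
      _ = ENNReal.ofReal (2 * D / t ^ 2) := by
          rw [lintegral_const, measure_univ, mul_one]
  rw [Measure.real]
  exact ENNReal.toReal_le_of_le_ofReal (by positivity) h1

lemma partN (h5 : S_L3) (D : ℕ) : (PP.prod PP).real
    {p : (ℕ → ℝ) × (ℕ → ℝ) | ∃ i ∈ Ioc D (2 * D), p.2 i = 0} = 0 := by
  have h1 : (PP.prod PP) {p : (ℕ → ℝ) × (ℕ → ℝ) | ∃ i ∈ Ioc D (2 * D), p.2 i = 0} = 0 := by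
    have h2 : {p : (ℕ → ℝ) × (ℕ → ℝ) | ∃ i ∈ Ioc D (2 * D), p.2 i = 0} =
        ⋃ i ∈ Ioc D (2 * D), (Set.univ ×ˢ {ω : ℕ → ℝ | ω i = 0}) := by
      ext p
      simp
    rw [h2]
    refine le_antisymm ((measure_biUnion_finset_le _ _).trans (le_of_eq ?_)) bot_le
    refine Finset.sum_eq_zero fun i _ => ?_
    rw [Measure.prod_prod, eval_null i h5, mul_zero]
  rw [Measure.real, h1]
  rfl

end Pool.Agent.H400.GP174.Mid2b

namespace Pool.Agent.H400.GP174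

open Pool.Agent.H174.GP Mid2b

/-- **Middle coordinates without the flippable pairs.** -/
theorem gp_mid2b (h1 : S_AdmGeo) (h2 : S_cheb) (h3 : S_flip) (h4 : S_Tq) (h5 : S_L3) :
    Pool.Agent.H174.GP.S_mid2b := by
  classical
  intro s1 s2 η δ hs1 hs2 hη hη4 hδ
  obtain ⟨K, hK, hpA⟩ := partA h1 h2 h4 s1 s2 η hs1 hs2 hη (by linarith)
  set R : ℝ := Real.sqrt ((K + 8) / δ) with hR
  have hR0 : 0 < R := Real.sqrt_pos.2 (by positivity)
  have hR2 : R ^ 2 = (K + 8) / δ := Real.sq_sqrt (by positivity)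
  refine ⟨R, hR0, 8, ?_⟩
  intro d hd σ hσ hl hu
  have hd0 : (0 : ℝ) < d := by
    have : 0 < d := by omega
    exact_mod_cast this
  have hsq : 0 < Real.sqrt d := Real.sqrt_pos.2 hd0
  have hsq2 : Real.sqrt d ^ 2 = d := Real.sq_sqrt hd0.le
  set D := d / 3 with hD
  set B := ⌊η * d⌋₊ with hB
  have hBD : B ≤ D := by
    have h6 : (B : ℝ) ≤ η * d := Nat.floor_le (by positivity)
    have h7 : (4 : ℝ) * B < d := by nlinarith
    have h8 : 4 * B < d := by exact_mod_cast h7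
    omega
  have h3D : 3 * D ≤ d := by omega
  have hDd : (D : ℝ) ≤ d := by
    have : D ≤ d := by omega
    exact_mod_cast this
  set t : ℝ := R / 2 * Real.sqrt d with ht
  have ht0 : 0 < t := by positivity
  -- the sets
  set bad0 : Set (ℕ → ℝ) := {ω | ∃ k ∈ Icc 1 d, R * (d : ℝ) ^ (3 / 2 : ℝ) <
      |∑ j ∈ Ioc B d, ((min j k : ℕ) : ℝ) * (X0 D σ ω j : ℝ)|} with hbad0
  set F : Set (ℕ → ℤ) := {x | ∃ k ∈ Icc 1 d, R / 2 * (d : ℝ) ^ (3 / 2 : ℝ) <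
      |∑ j ∈ Ioc B d, ((min j k : ℕ) : ℝ) * (x j : ℝ)|} with hF
  have hdep : DepI d F := by
    rintro x x' hx ⟨k, hk, hlt⟩
    refine ⟨k, hk, ?_⟩
    have h6 : ∑ j ∈ Ioc B d, ((min j k : ℕ) : ℝ) * (x' j : ℝ) =
        ∑ j ∈ Ioc B d, ((min j k : ℕ) : ℝ) * (x j : ℝ) := by
      apply Finset.sum_congr rfl
      intro j hj
      rw [Finset.mem_Ioc] at hj
      rw [hx j (Finset.mem_Icc.2 ⟨by omega, hj.2⟩)]
    rw [h6]
    exact hlt
  have hfl := h3 D d σ F hσ hdep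
  have hA := hpA d σ R (by omega) hσ hl hu hR0
  have hFgeo : {ω : ℕ → ℝ | (fun j => geo σ ω j) ∈ F} = {ω | ∃ k ∈ Icc 1 d,
      R / 2 * (d : ℝ) ^ (3 / 2 : ℝ) <
        |∑ j ∈ Ioc B d, ((min j k : ℕ) : ℝ) * (geo σ ω j : ℝ)|} := rfl
  rw [hFgeo] at hfl
  have hB2 := partB h2 h4 D σ t hσ ht0
  have hN := partN h5 D
  have hsub : bad0 ×ˢ (Set.univ : Set (ℕ → ℝ)) ⊆
      {p | (fun j => XT D σ p j) ∈ F} ∪
      ({p : (ℕ → ℝ) × (ℕ → ℝ) | ∃ l ∈ Icc D (2 * D),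
        t ≤ |∑ j ∈ Ioc D l, (if j ∈ IP D σ p.1 then so (p.2 j) else 0)|} ∪
      {p : (ℕ → ℝ) × (ℕ → ℝ) | ∃ i ∈ Ioc D (2 * D), p.2 i = 0}) := by
    rintro p ⟨⟨k, hk, hlt⟩, -⟩
    by_contra hcon
    rw [Set.mem_union, Set.mem_union, not_or, not_or] at hcon
    obtain ⟨hc1, hc2, hc3⟩ := hcon
    have haS : ∀ j ∈ Ioc D (2 * D), aS D σ p j = if j ∈ IP D σ p.1 then so (p.2 j) else 0 := by
      intro j hj
      unfold aS
      by_cases h : j ∈ IP D σ p.1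
      · rw [if_pos h, if_pos h]
        apply sg_eq
        intro h0
        exact hc3 ⟨j, hj, h0⟩
      · rw [if_neg h, if_neg h]
    have habel := abel D (2 * D) (by omega) (aS D σ p) (ps D k) t (ps_anti D k) (ps_nonneg D k)
      (fun l hl1 hl2 => by
        have h6 : ∑ i ∈ Ioc D l, aS D σ p i =
            ∑ j ∈ Ioc D l, (if j ∈ IP D σ p.1 then so (p.2 j) else 0) := by
          apply Finset.sum_congr rfl
          intro j hj
          rw [Finset.mem_Ioc] at hj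
          exact haS j (Finset.mem_Ioc.2 (by omega))
        rw [h6]
        by_contra h
        exact hc2 ⟨l, Finset.mem_Icc.2 ⟨hl1, hl2⟩, (not_le.1 h).le⟩)
    have h6 : |∑ i ∈ Ioc D (2 * D), aS D σ p i * ps D k i| ≤ R / 2 * (d : ℝ) ^ (3 / 2 : ℝ) := by
      refine habel.trans ?_
      rw [rpow32, ht]
      have h7 := ps_le D k D
      have h8 := ps_nonneg D k D
      calc R / 2 * Real.sqrt d * ps D k D ≤ R / 2 * Real.sqrt d * d :=
            mul_le_mul_of_nonneg_left (h7.trans hDd) (by positivity)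
        _ = R / 2 * (d * Real.sqrt d) := by ring
    apply hc1
    refine ⟨k, hk, ?_⟩
    have h7 := sum_XT D B d k hBD h3D σ p
    show R / 2 * (d : ℝ) ^ (3 / 2 : ℝ) < |∑ j ∈ Ioc B d, ((min j k : ℕ) : ℝ) * (XT D σ p j : ℝ)|
    rw [h7]
    have h8 := abs_sub_abs_le_abs_add (∑ j ∈ Ioc B d, ((min j k : ℕ) : ℝ) * (X0 D σ p.1 j : ℝ))
      (∑ i ∈ Ioc D (2 * D), aS D σ p i * ps D k i)
    have h9 : R * (d : ℝ) ^ (3 / 2 : ℝ) = R / 2 * (d : ℝ) ^ (3 / 2 : ℝ) +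
        R / 2 * (d : ℝ) ^ (3 / 2 : ℝ) := by ring
    rw [h9] at hlt
    linarith
  have hprod : (PP.prod PP).real (bad0 ×ˢ (Set.univ : Set (ℕ → ℝ))) = PP.real bad0 := by
    rw [Measure.real, Measure.prod_prod, measure_univ, mul_one]
    rfl
  show PP.real bad0 ≤ δ
  rw [← hprod]
  refine (measureReal_mono hsub).trans ((measureReal_union_le _ _).trans ?_)
  have h6 := measureReal_union_le (μ := PP.prod PP)
    {p : (ℕ → ℝ) × (ℕ → ℝ) | ∃ l ∈ Icc D (2 * D),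
        t ≤ |∑ j ∈ Ioc D l, (if j ∈ IP D σ p.1 then so (p.2 j) else 0)|}
    {p : (ℕ → ℝ) × (ℕ → ℝ) | ∃ i ∈ Ioc D (2 * D), p.2 i = 0}
  have h7 : 2 * (D : ℝ) / t ^ 2 ≤ 8 / R ^ 2 := by
    have h8 : t ^ 2 = R ^ 2 / 4 * d := by
      rw [ht]
      calc (R / 2 * Real.sqrt d) ^ 2 = R ^ 2 / 4 * Real.sqrt d ^ 2 := by ring
        _ = _ := by rw [hsq2]
    calc 2 * (D : ℝ) / t ^ 2 ≤ 2 * (d : ℝ) / t ^ 2 := by gcongr
      _ = 8 / R ^ 2 := by
        rw [h8]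
        field_simp
        norm_num
  have h8 : K / R ^ 2 + 8 / R ^ 2 = δ := by
    rw [← add_div, hR2]
    field_simp
  have h9 : (PP.prod PP).real {p | (fun j => XT D σ p j) ∈ F} ≤ K / R ^ 2 := by
    rw [hfl]
    exact hA
  linarith

end Pool.Agent.H400.GP174
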