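import Pool.Agent.H174.GP.StE
import Pool.Agent.H174.GP.StA
import Pool.Agent.H174.GP.StP

/-!
# GP mid2b (helper400, for helper174): deterministic part
-/

open MeasureTheory ProbabilityTheory Finset

namespace Pool.Agent.H400.GP174.Mid2b

open Pool.Agent.H174.GP

/-- the weights of the signs -/
def ps (D k i : ℕ) : ℝ := ((min (i + D) k : ℕ) : ℝ) - ((min i k : ℕ) : ℝ)

lemma ps_nonneg (D k i : ℕ) : 0 ≤ ps D k i := by
  unfold ps
  have h : min i k ≤ min (i + D) k := by omega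
  have h' : ((min i k : ℕ) : ℝ) ≤ ((min (i + D) k : ℕ) : ℝ) := by exact_mod_cast h
  linarith

lemma ps_le (D k i : ℕ) : ps D k i ≤ D := by
  unfold ps
  have h : min (i + D) k ≤ min i k + D := by omega
  have h' : ((min (i + D) k : ℕ) : ℝ) ≤ ((min i k : ℕ) : ℝ) + D := by exact_mod_cast h
  linarith

lemma ps_anti (D k i : ℕ) : ps D k (i + 1) ≤ ps D k i := by
  unfold ps
  have h : min (i + 1 + D) k + min i k ≤ min (i + D) k + min (i + 1) k := by omega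
  have h' : ((min (i + 1 + D) k : ℕ) : ℝ) + ((min i k : ℕ) : ℝ) ≤
      ((min (i + D) k : ℕ) : ℝ) + ((min (i + 1) k : ℕ) : ℝ) := by exact_mod_cast h
  linarith

/-- Abel summation -/
lemma abel (D b : ℕ) (hb : D ≤ b) (e ψ : ℕ → ℝ) (M : ℝ) (hψ : ∀ i, ψ (i + 1) ≤ ψ i)
    (hψ0 : ∀ i, 0 ≤ ψ i) (hM : ∀ l, D ≤ l → l ≤ b → |∑ i ∈ Ioc D l, e i| ≤ M) :
    |∑ i ∈ Ioc D b, e i * ψ i| ≤ M * ψ D := by
  have key : ∀ c, D ≤ c → c ≤ b →
      |∑ i ∈ Ioc D c, e i * ψ i - (∑ i ∈ Ioc D c, e i) * ψ c| ≤ M * (ψ D - ψ c) := by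
    intro c hc
    induction c, hc using Nat.le_induction with
    | base => intro _; simp
    | succ c hc ih =>
      intro hcb
      have h1 := ih (by omega)
      have h2 := hM c hc (by omega)
      rw [Finset.sum_Ioc_succ_top hc, Finset.sum_Ioc_succ_top hc]
      have h3 : ∑ i ∈ Ioc D c, e i * ψ i + e (c + 1) * ψ (c + 1) -
          (∑ i ∈ Ioc D c, e i + e (c + 1)) * ψ (c + 1) =
          (∑ i ∈ Ioc D c, e i * ψ i - (∑ i ∈ Ioc D c, e i) * ψ c) +
          (∑ i ∈ Ioc D c, e i) * (ψ c - ψ (c + 1)) := by ring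
      rw [h3]
      refine (abs_add_le _ _).trans ?_
      rw [abs_mul (∑ i ∈ Ioc D c, e i), abs_of_nonneg (sub_nonneg.2 (hψ c))]
      have h4 := mul_le_mul_of_nonneg_right h2 (sub_nonneg.2 (hψ c))
      linarith
  have h1 := key b hb le_rfl
  have h2 := hM b hb le_rfl
  have h3 : |(∑ i ∈ Ioc D b, e i) * ψ b| ≤ M * ψ b := by
    rw [abs_mul, abs_of_nonneg (hψ0 b)]
    exact mul_le_mul_of_nonneg_right h2 (hψ0 b)
  have h4 : ∑ i ∈ Ioc D b, e i * ψ i =
      (∑ i ∈ Ioc D b, e i * ψ i - (∑ i ∈ Ioc D b, e i) * ψ b) + (∑ i ∈ Ioc D b, e i) * ψ b := by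
    ring
  rw [h4]
  refine (abs_add_le _ _).trans ?_
  linarith

open Classical in
/-- the signs on the flippable pairs -/
noncomputable def aS (D : ℕ) (σ : ℝ) (p : (ℕ → ℝ) × (ℕ → ℝ)) (i : ℕ) : ℝ :=
  if i ∈ IP D σ p.1 then (sg (p.2 i) : ℝ) else 0

lemma mem_IP {D : ℕ} {σ : ℝ} {ω : ℕ → ℝ} {i : ℕ} (h : i ∈ IP D σ ω) : D < i ∧ i ≤ 2 * D := by
  classical
  unfold IP at h
  exact Finset.mem_Ioc.1 (Finset.mem_filter.1 h).1

lemma XT_eq (D : ℕ) (σ : ℝ) (p : (ℕ → ℝ) × (ℕ → ℝ)) (j : ℕ) :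
    (XT D σ p j : ℝ) = (X0 D σ p.1 j : ℝ) - aS D σ p j + (if D ≤ j then aS D σ p (j - D) else 0) := by
  classical
  unfold XT X0 aS
  by_cases h1 : j ∈ IP D σ p.1
  · have h2 : ¬ (D ≤ j ∧ j - D ∈ IP D σ p.1) := by
      rintro ⟨_, h3⟩
      have h4 := mem_IP h1
      have h5 := mem_IP h3
      omega
    have h3 : j - D ∉ IP D σ p.1 := by
      intro h3
      have h4 := mem_IP h1
      have h5 := mem_IP h3
      omega
    rw [if_pos h1, if_pos (Or.inl h1), if_pos h1, if_neg h3]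
    push_cast
    simp
  · by_cases h2 : D ≤ j ∧ j - D ∈ IP D σ p.1
    · rw [if_neg h1, if_pos h2, if_pos (Or.inr h2), if_neg h1, if_pos h2.1, if_pos h2.2]
      push_cast
      simp
    · rw [if_neg h1, if_neg h2, if_neg (not_or.2 ⟨h1, h2⟩), if_neg h1]
      by_cases h3 : D ≤ j
      · have h4 : j - D ∉ IP D σ p.1 := fun h => h2 ⟨h3, h⟩
        rw [if_pos h3, if_neg h4]
        simp
      · rw [if_neg h3]
        simp

/-- the identity for the sums -/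
lemma sum_XT (D B d k : ℕ) (hB : B ≤ D) (hd : 3 * D ≤ d) (σ : ℝ) (p : (ℕ → ℝ) × (ℕ → ℝ)) :
    ∑ j ∈ Ioc B d, ((min j k : ℕ) : ℝ) * (XT D σ p j : ℝ) =
      ∑ j ∈ Ioc B d, ((min j k : ℕ) : ℝ) * (X0 D σ p.1 j : ℝ) +
        ∑ i ∈ Ioc D (2 * D), aS D σ p i * ps D k i := by
  classical
  have hsupp : ∀ i, aS D σ p i ≠ 0 → D < i ∧ i ≤ 2 * D := by
    intro i hi
    unfold aS at hi
    by_contra hcon
    apply hi
    rw [if_neg]
    intro h
    exact hcon (mem_IP h)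
  have h1 : ∑ j ∈ Ioc B d, ((min j k : ℕ) : ℝ) * aS D σ p j =
      ∑ i ∈ Ioc D (2 * D), ((min i k : ℕ) : ℝ) * aS D σ p i := by
    symm
    apply Finset.sum_subset
    · intro i hi
      rw [Finset.mem_Ioc] at hi ⊢
      omega
    · intro i _ hi2
      by_contra hne
      have h3 : aS D σ p i ≠ 0 := right_ne_zero_of_mul hne
      exact hi2 (Finset.mem_Ioc.2 (hsupp i h3))
  have h2 : ∑ j ∈ Ioc B d, ((min j k : ℕ) : ℝ) * (if D ≤ j then aS D σ p (j - D) else 0) =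
      ∑ i ∈ Ioc D (2 * D), ((min (i + D) k : ℕ) : ℝ) * aS D σ p i := by
    have h3 : ∑ j ∈ Ioc (2 * D) (3 * D), ((min j k : ℕ) : ℝ) *
        (if D ≤ j then aS D σ p (j - D) else 0) =
        ∑ j ∈ Ioc B d, ((min j k : ℕ) : ℝ) * (if D ≤ j then aS D σ p (j - D) else 0) := by
      apply Finset.sum_subset
      · intro i hi
        rw [Finset.mem_Ioc] at hi ⊢
        omega
      · intro j _ hj2
        by_contra hne
        have h3 := right_ne_zero_of_mul hne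
        by_cases hDj : D ≤ j
        · rw [if_pos hDj] at h3
          have h4 := hsupp _ h3
          exact hj2 (Finset.mem_Ioc.2 (by omega))
        · rw [if_neg hDj] at h3
          exact h3 rfl
    rw [← h3]
    symm
    refine Finset.sum_nbij' (fun i => i + D) (fun j => j - D) ?_ ?_ ?_ ?_ ?_
    · intro i hi
      rw [Finset.mem_Ioc] at hi ⊢
      omega
    · intro j hj
      rw [Finset.mem_Ioc] at hj ⊢
      omega
    · intro i _
      exact Nat.add_sub_cancel i D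
    · intro j hj
      rw [Finset.mem_Ioc] at hj
      show j - D + D = j
      omega
    · intro i _
      rw [if_pos (Nat.le_add_left D i), Nat.add_sub_cancel]
  have h4 : ∀ j, ((min j k : ℕ) : ℝ) * (XT D σ p j : ℝ) = ((min j k : ℕ) : ℝ) * (X0 D σ p.1 j : ℝ)
      - ((min j k : ℕ) : ℝ) * aS D σ p j +
        ((min j k : ℕ) : ℝ) * (if D ≤ j then aS D σ p (j - D) else 0) := by
    intro j
    rw [XT_eq]
    ring
  rw [Finset.sum_congr rfl fun j _ => h4 j, Finset.sum_add_distrib, Finset.sum_sub_distrib, h1, h2,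
    sub_add_eq_add_sub, add_sub_assoc, ← Finset.sum_sub_distrib]
  congr 1
  apply Finset.sum_congr rfl
  intro i _
  unfold ps
  ring

/-- splitting the sum at `k` -/
lemma sum_split (B d k : ℕ) (hBd : B ≤ d) (hk : k ≤ d) (y : ℕ → ℝ) :
    ∃ l, B ≤ l ∧ l ≤ d ∧ ∑ j ∈ Ioc B d, ((min j k : ℕ) : ℝ) * y j =
      ∑ j ∈ Ioc B l, (j : ℝ) * y j + k * (∑ j ∈ Ioc B d, y j - ∑ j ∈ Ioc B l, y j) := by
  refine ⟨max B k, le_max_left _ _, max_le hBd hk, ?_⟩
  have hl : B ≤ max B k := le_max_left _ _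
  have hld : max B k ≤ d := max_le hBd hk
  have h1 : ∀ f : ℕ → ℝ, ∑ j ∈ Ioc B d, f j =
      ∑ j ∈ Ioc B (max B k), f j + ∑ j ∈ Ioc (max B k) d, f j := by
    intro f
    exact (Finset.sum_Ioc_consecutive f hl hld).symm
  rw [h1, h1 y, add_sub_cancel_left, Finset.mul_sum]
  congr 1
  · apply Finset.sum_congr rfl
    intro j hj
    rw [Finset.mem_Ioc] at hj
    have h2 : min j k = j := by
      rcases le_max_iff.1 hj.2 with h | h
      · omega
      · omega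
    rw [h2]
  · apply Finset.sum_congr rfl
    intro j hj
    rw [Finset.mem_Ioc] at hj
    have h2 : min j k = k := by
      have := le_max_right B k
      omega
    rw [h2]

/-- deterministic bound -/
lemma sum_bd (B d k : ℕ) (hBd : B ≤ d) (hk : k ≤ d) (y : ℕ → ℝ) (t1 t2 : ℝ)
    (h1 : ∀ l, B ≤ l → l ≤ d → |∑ j ∈ Ioc B l, (j : ℝ) * y j| ≤ t1)
    (h2 : ∀ l, B ≤ l → l ≤ d → |∑ j ∈ Ioc B l, y j| ≤ t2) :
    |∑ j ∈ Ioc B d, ((min j k : ℕ) : ℝ) * y j| ≤ t1 + d * (2 * t2) := by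
  obtain ⟨l, hl1, hl2, hl⟩ := sum_split B d k hBd hk y
  rw [hl]
  refine (abs_add_le _ _).trans (add_le_add (h1 l hl1 hl2) ?_)
  rw [abs_mul, Nat.abs_cast]
  have h3 : |∑ j ∈ Ioc B d, y j - ∑ j ∈ Ioc B l, y j| ≤ 2 * t2 := by
    have h4 := h2 d hBd le_rfl
    have h5 := h2 l hl1 hl2
    have h6 := abs_sub (∑ j ∈ Ioc B d, y j) (∑ j ∈ Ioc B l, y j)
    linarith
  have h4 : (k : ℝ) ≤ d := by exact_mod_cast hk
  exact mul_le_mul h4 h3 (abs_nonneg _) (by positivity)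

end Pool.Agent.H400.GP174.Mid2b
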